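import Mathlib

/-!
# Linear characters of an elementary abelian group of order `ℓ ^ 2`, transforms on cyclic groups
-/

namespace Pool.Agent.PP.SO.H33

open scoped BigOperators

/-- a linear character -/
def Ln {V₀ : Type} [CommGroup V₀] (f : V₀ → ℂ) : Prop := f 1 = 1 ∧ ∀ v w, f (v * w) = f v * f w

section lin

variable {V₀ : Type} [CommGroup V₀] {f f' : V₀ → ℂ}

theorem Ln.inv_mul (h : Ln f) (v : V₀) : f v⁻¹ * f v = 1 := by
  rw [← h.2, inv_mul_cancel, h.1]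

theorem Ln.pow (h : Ln f) (v : V₀) (n : ℕ) : f (v ^ n) = f v ^ n := by
  induction n with
  | zero => simp [h.1]
  | succ n ih => rw [pow_succ, pow_succ, h.2, ih]

theorem Ln.ne (h : Ln f) (v : V₀) : f v ≠ 0 := by
  intro h0
  have := h.inv_mul v
  rw [h0, mul_zero] at this
  exact zero_ne_one this

theorem Ln.norm [Finite V₀] (h : Ln f) (v : V₀) : ‖f v‖ = 1 := by
  have h1 : f v ^ Nat.card V₀ = 1 := by
    rw [← h.pow, pow_card_eq_one', h.1]
  exact Complex.norm_eq_one_of_pow_eq_one h1 Nat.card_pos.ne'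

theorem Ln.star [Finite V₀] (h : Ln f) (v : V₀) : starRingEnd ℂ (f v) = f v⁻¹ := by
  have h1 : starRingEnd ℂ (f v) * f v = 1 := by
    rw [mul_comm, Complex.mul_conj, Complex.normSq_eq_norm_sq, h.norm]
    simp
  have h2 := h.inv_mul v
  exact mul_right_cancel₀ (h.ne v) (h1.trans h2.symm)

/-- orthogonality -/
theorem Ln.orth [Fintype V₀] (h : Ln f) (h' : Ln f') (hne : f ≠ f') :
    ∑ x, f x⁻¹ * f' x = 0 := by
  obtain ⟨y, hy⟩ := Function.ne_iff.1 hne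
  have h1 : ∑ x, f x⁻¹ * f' x = f y⁻¹ * f' y * ∑ x, f x⁻¹ * f' x := by
    rw [Finset.mul_sum, ← Equiv.sum_comp (Equiv.mulLeft y) (fun x => f x⁻¹ * f' x)]
    refine Finset.sum_congr rfl fun x _ => ?_
    show f (y * x)⁻¹ * f' (y * x) = _
    rw [mul_inv_rev, h.2, h'.2]
    ring
  have h2 : f y⁻¹ * f' y ≠ 1 := by
    intro h3
    apply hy
    have h4 : f y⁻¹ * f' y = f y⁻¹ * f y := by rw [h3, h.inv_mul]
    exact (mul_left_cancel₀ (h.ne _) h4).symm
  have h3 : (f y⁻¹ * f' y - 1) * ∑ x, f x⁻¹ * f' x = 0 := by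
    rw [sub_mul, ← h1, one_mul, sub_self]
  rcases mul_eq_zero.1 h3 with h4 | h4
  · exact absurd (sub_eq_zero.1 h4) h2
  · exact h4

theorem Ln.orth_self [Fintype V₀] (h : Ln f) : ∑ x, f x⁻¹ * f x = Fintype.card V₀ := by
  simp [h.inv_mul]

/-- a family of `|V₀|` linear characters with the right sums is the family of all the linear
characters -/
theorem bij_of_sum [Fintype V₀] {X : Type*} {B : Set X} (hB : B.Finite)
    (hc : B.ncard = Fintype.card V₀) (μ : X → V₀ → ℂ) (hμ : ∀ χ ∈ B, Ln (μ χ))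
    (hs : ∀ x : V₀, x ≠ 1 → ∑ χ ∈ hB.toFinset, μ χ x = 0) :
    Set.BijOn μ B {f | Ln f} := by
  classical
  have hcard : hB.toFinset.card = Fintype.card V₀ := by
    rw [← hc, Set.ncard_eq_toFinset_card _ hB]
  have key : ∀ f : V₀ → ℂ, Ln f → (hB.toFinset.filter fun χ => μ χ = f).card = 1 := by
    intro f hf
    have h1 : ∑ x, f x⁻¹ * ∑ χ ∈ hB.toFinset, μ χ x = Fintype.card V₀ := by
      rw [Finset.sum_eq_single (1 : V₀)]
      · rw [inv_one, hf.1, one_mul, Finset.sum_congr rfl (g := fun _ => (1 : ℂ))]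
        · simp [hcard]
        · intro χ hχ
          exact (hμ χ (hB.mem_toFinset.1 hχ)).1
      · intro x _ hx
        rw [hs x hx, mul_zero]
      · intro h
        exact absurd (Finset.mem_univ _) h
    have h2 : ∑ x, f x⁻¹ * ∑ χ ∈ hB.toFinset, μ χ x =
        ∑ χ ∈ hB.toFinset, if μ χ = f then (Fintype.card V₀ : ℂ) else 0 := by
      simp_rw [Finset.mul_sum]
      rw [Finset.sum_comm]
      refine Finset.sum_congr rfl fun χ hχ => ?_
      have h3 := hμ χ (hB.mem_toFinset.1 hχ)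
      split_ifs with h4
      · rw [h4]
        exact hf.orth_self
      · exact hf.orth h3 (Ne.symm h4)
    rw [h2, ← Finset.sum_filter, Finset.sum_const, nsmul_eq_mul] at h1
    have h3 : (Fintype.card V₀ : ℂ) ≠ 0 := by exact_mod_cast Fintype.card_ne_zero
    have h4 : ((hB.toFinset.filter fun χ => μ χ = f).card : ℂ) = 1 := by
      have h5 : ((hB.toFinset.filter fun χ => μ χ = f).card : ℂ) * Fintype.card V₀ =
          1 * Fintype.card V₀ := by rw [h1, one_mul]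
      exact mul_right_cancel₀ h3 h5
    exact_mod_cast h4
  refine ⟨fun χ hχ => hμ χ hχ, ?_, ?_⟩
  · intro χ hχ χ' hχ' h
    have h1 := key (μ χ) (hμ χ hχ)
    rw [Finset.card_eq_one] at h1
    obtain ⟨a, ha⟩ := h1
    have h2 : χ ∈ hB.toFinset.filter fun χ₁ => μ χ₁ = μ χ := by
      rw [Finset.mem_filter]
      exact ⟨hB.mem_toFinset.2 hχ, rfl⟩
    have h3 : χ' ∈ hB.toFinset.filter fun χ₁ => μ χ₁ = μ χ := by
      rw [Finset.mem_filter]
      exact ⟨hB.mem_toFinset.2 hχ', h.symm⟩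
    rw [ha, Finset.mem_singleton] at h2 h3
    rw [h2, h3]
  · intro f hf
    have h1 := key f hf
    obtain ⟨χ, hχ⟩ := Finset.card_pos.1 (by rw [h1]; exact one_pos)
    rw [Finset.mem_filter] at hχ
    exact ⟨χ, hB.mem_toFinset.1 hχ.1, hχ.2⟩

end lin

/-! ### Subgroups of a group of order `ℓ ^ 2` -/

section sub

variable {V₀ : Type} [CommGroup V₀] {ℓ : ℕ} [hℓ : Fact ℓ.Prime]

theorem sup_top (hc : Nat.card V₀ = ℓ ^ 2) {W : Subgroup V₀} (hW : W ≠ ⊥) {x : V₀}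
    (hx : x ∉ W) : W ⊔ Subgroup.zpowers x = ⊤ := by
  have hfin : Finite V₀ := Nat.finite_of_card_ne_zero (by
    rw [hc]
    exact pow_ne_zero _ hℓ.out.ne_zero)
  apply Subgroup.eq_top_of_card_eq
  rw [hc]
  have h1 : Nat.card W ∣ ℓ ^ 2 := hc ▸ Subgroup.card_subgroup_dvd_card W
  have h2 : Nat.card (W ⊔ Subgroup.zpowers x : Subgroup V₀) ∣ ℓ ^ 2 :=
    hc ▸ Subgroup.card_subgroup_dvd_card _
  obtain ⟨a, ha, ha2⟩ := (Nat.dvd_prime_pow hℓ.out).1 h1
  obtain ⟨b, hb, hb2⟩ := (Nat.dvd_prime_pow hℓ.out).1 h2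
  have h3 : Nat.card W ≠ 1 := fun h => hW (Subgroup.card_eq_one.1 h)
  have h4 : a ≠ 0 := fun h => h3 (by rw [ha2, h, pow_zero])
  have h5 : W < W ⊔ Subgroup.zpowers x := by
    refine lt_of_le_of_ne le_sup_left fun h => hx ?_
    rw [h]
    exact (le_sup_right : Subgroup.zpowers x ≤ W ⊔ Subgroup.zpowers x)
      (Subgroup.mem_zpowers x)
  have h6 : Nat.card W < Nat.card (W ⊔ Subgroup.zpowers x : Subgroup V₀) := by
    by_contra h
    push Not at h
    exact h5.ne (Subgroup.eq_of_le_of_card_ge h5.le h)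
  rw [ha2, hb2] at h6
  have h7 := (Nat.pow_lt_pow_iff_right hℓ.out.one_lt).1 h6
  have h8 : b = 2 := by omega
  rw [hb2, h8]

/-- decomposition -/
theorem decomp (hex : ∀ v : V₀, v ^ ℓ = 1) (hc : Nat.card V₀ = ℓ ^ 2) {W : Subgroup V₀}
    (hW : W ≠ ⊥) {x : V₀} (hx : x ∉ W) (v : V₀) : ∃ (j : ℕ) (w : V₀), w ∈ W ∧ v = x ^ j * w := by
  have h1 : v ∈ W ⊔ Subgroup.zpowers x := by rw [sup_top hc hW hx]; trivial
  obtain ⟨w, hw, y, hy, rfl⟩ := Subgroup.mem_sup.1 h1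
  obtain ⟨n, rfl⟩ := Subgroup.mem_zpowers_iff.1 hy
  obtain ⟨m, hm⟩ : ∃ m : ℕ, x ^ n = x ^ m := by
    refine ⟨(n % ℓ).toNat, ?_⟩
    have h3 : (ℓ : ℤ) ≠ 0 := by exact_mod_cast hℓ.out.ne_zero
    rw [← zpow_natCast, Int.toNat_of_nonneg (Int.emod_nonneg n h3)]
    conv_lhs => rw [← Int.emod_add_mul_ediv n ℓ, zpow_add, zpow_mul, zpow_natCast, hex, one_zpow,
      mul_one]
  exact ⟨m, w, hw, by rw [hm, mul_comm]⟩

theorem pow_notMem (hex : ∀ v : V₀, v ^ ℓ = 1) {W : Subgroup V₀} {x : V₀} (hx : x ∉ W) {j : ℕ}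
    (hj : ¬ ℓ ∣ j) : x ^ j ∉ W := by
  intro h
  apply hx
  have h1 : orderOf x ∣ ℓ := orderOf_dvd_of_pow_eq_one (hex x)
  have h2 : j.Coprime (orderOf x) := by
    refine Nat.Coprime.coprime_dvd_right h1 ?_
    exact ((Nat.Prime.coprime_iff_not_dvd hℓ.out).2 hj).symm
  obtain ⟨m, hm⟩ := exists_pow_eq_self_of_coprime h2
  rw [← hm]
  exact W.pow_mem h m

omit hℓ in
theorem pow_dvd (hex : ∀ v : V₀, v ^ ℓ = 1) (x : V₀) {j : ℕ} (hj : ℓ ∣ j) : x ^ j = 1 := by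
  obtain ⟨k, rfl⟩ := hj
  rw [pow_mul, hex, one_pow]

/-- a function given by a character of `W` and a root of unity is a linear character -/
theorem ln_of (hex : ∀ v : V₀, v ^ ℓ = 1) (hc : Nat.card V₀ = ℓ ^ 2) {W : Subgroup V₀}
    (hW : W ≠ ⊥) {x : V₀} (hx : x ∉ W) {f ν : V₀ → ℂ} {η : ℂ}
    (hν : ∀ w ∈ W, ∀ w' ∈ W, ν (w * w') = ν w * ν w') (hν1 : ν 1 = 1)
    (hf : ∀ j : ℕ, ∀ w ∈ W, f (x ^ j * w) = ν w * η ^ j) : Ln f := by
  refine ⟨?_, ?_⟩
  · have := hf 0 1 W.one_mem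
    rw [pow_zero, mul_one, hν1, pow_zero, mul_one] at this
    exact this
  · intro v v'
    obtain ⟨j, w, hw, rfl⟩ := decomp hex hc hW hx v
    obtain ⟨j', w', hw', rfl⟩ := decomp hex hc hW hx v'
    have e1 : x ^ j * w * (x ^ j' * w') = x ^ (j + j') * (w * w') := by
      rw [pow_add]
      simp only [mul_assoc, mul_left_comm, mul_comm]
    rw [e1, hf _ _ (W.mul_mem hw hw'), hf _ _ hw, hf _ _ hw', hν w hw w' hw', pow_add]
    ring

end sub

/-! ### Transforms -/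

section dft

variable {ℓ : ℕ} [hℓ : Fact ℓ.Prime] {ζ : ℂ}

omit hℓ in
theorem geom_zero (hζ : IsPrimitiveRoot ζ ℓ) {i : ℕ} (hi : ¬ ℓ ∣ i) :
    ∑ j ∈ Finset.range ℓ, ζ ^ (i * j) = 0 := by
  have h1 : ζ ^ i ≠ 1 := fun h => hi ((hζ.pow_eq_one_iff_dvd i).1 h)
  have h2 : (ζ ^ i) ^ ℓ = 1 := by
    rw [← pow_mul, mul_comm, pow_mul, hζ.pow_eq_one, one_pow]
  have h3 := geom_sum_eq h1 ℓ
  rw [h2, sub_self, zero_div] at h3
  simpa [pow_mul] using h3

/-- a function on the cyclic group whose transform vanishes off `0` -/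
theorem sum_of_zero (hζ : IsPrimitiveRoot ζ ℓ) (m : ℕ → ℤ)
    (h : ∀ j : ℕ, ¬ ℓ ∣ j → ∑ i ∈ Finset.range ℓ, (m i : ℂ) * ζ ^ (i * j) = 0) :
    ∑ i ∈ Finset.range ℓ, m i = ℓ * m 0 := by
  have hpos := hℓ.out.pos
  have h1 : ∑ j ∈ Finset.range ℓ, ∑ i ∈ Finset.range ℓ, (m i : ℂ) * ζ ^ (i * j) =
      ℓ * m 0 := by
    rw [Finset.sum_comm, Finset.sum_eq_single 0]
    · simp
    · intro i hi hi0
      rw [← Finset.mul_sum, geom_zero hζ, mul_zero]
      intro hd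
      have := Nat.le_of_dvd (Nat.pos_of_ne_zero hi0) hd
      exact absurd (Finset.mem_range.1 hi) (not_lt.2 this)
    · intro h0
      exact absurd (Finset.mem_range.2 hpos) h0
  have h2 : ∑ j ∈ Finset.range ℓ, ∑ i ∈ Finset.range ℓ, (m i : ℂ) * ζ ^ (i * j) =
      ∑ i ∈ Finset.range ℓ, (m i : ℂ) := by
    rw [Finset.sum_eq_single 0]
    · simp
    · intro j hj hj0
      apply h
      intro hd
      have := Nat.le_of_dvd (Nat.pos_of_ne_zero hj0) hd
      exact absurd (Finset.mem_range.1 hj) (not_lt.2 this)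
    · intro h0
      exact absurd (Finset.mem_range.2 hpos) h0
  rw [h2] at h1
  exact_mod_cast h1

omit hℓ in
/-- the values of the transform of a constant plus a delta function -/
theorem val_of_delta (hζ : IsPrimitiveRoot ζ ℓ) (m : ℕ → ℤ) (j₀ : Fin ℓ) (ε m₀ : ℤ)
    (h : ∀ k : Fin ℓ, m k = m₀ + if k = j₀ then ε else 0) :
    (∀ j : ℕ, ¬ ℓ ∣ j → ∑ i ∈ Finset.range ℓ, (m i : ℂ) * ζ ^ (i * j) =
      ε * (ζ ^ (j₀ : ℕ)) ^ j) ∧ ∑ i ∈ Finset.range ℓ, m i = ℓ * m₀ + ε := by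
  have h1 : ∀ i ∈ Finset.range ℓ, m i = m₀ + if i = (j₀ : ℕ) then ε else 0 := by
    intro i hi
    have h2 := h ⟨i, Finset.mem_range.1 hi⟩
    simp only [Fin.ext_iff] at h2
    exact h2
  refine ⟨?_, ?_⟩
  · intro j hj
    have h3 : ∀ i ∈ Finset.range ℓ, (m i : ℂ) * ζ ^ (i * j) =
        m₀ * ζ ^ (j * i) + if i = (j₀ : ℕ) then (ε : ℂ) * ζ ^ (i * j) else 0 := by
      intro i hi
      rw [h1 i hi, mul_comm j i]
      split_ifs <;> push_cast <;> ring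
    rw [Finset.sum_congr rfl h3, Finset.sum_add_distrib, ← Finset.mul_sum, geom_zero hζ hj,
      mul_zero, zero_add, Finset.sum_ite_eq', if_pos (Finset.mem_range.2 j₀.2), ← pow_mul]
  · rw [Finset.sum_congr rfl h1, Finset.sum_add_distrib, Finset.sum_ite_eq',
      if_pos (Finset.mem_range.2 j₀.2)]
    simp

end dft

end Pool.Agent.PP.SO.H33
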