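import Pool.Agent.ASO.Stmts3
import Pool.Agent.Helper41_AT3.NIT
import Pool.Agent.Helper72_AT3.NIB
import Pool.Agent.Helper62_AT3.CO2
import Pool.Agent.Helper33_ASO.Lin

/-!
# Character values in a local block: the group `H = C(i W)`
-/

open scoped BigOperators

noncomputable section

namespace Pool.Agent.PP.SO.H33

open Pool.Agent.Helper51_AWC Pool.Agent.Helper79_WRA Pool.Agent.PP Pool.Agent.PP.KF
open Pool.Agent.PP.K9 Pool.Agent.PP.K9.H97 Pool.Agent.PP.H75 Pool.Agent.PP.T3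

attribute [local instance] Ideal.Quotient.field

section gen

variable {M : Ideal (integralClosure ℤ ℂ)} [M.IsMaximal] {H : Type} [Group H] [Finite H]

/-- the lift of the idempotent `g` of `C`, as a function on the group -/
def EG (M : Ideal (integralClosure ℤ ℂ)) [M.IsMaximal] (C : Subgroup H) (g : H → FF M) : H → ℂ :=
  PP.ext0 C (eh M (fun t : C => g t))

omit [Finite H] in
theorem EG_mem (C : Subgroup H) (g : H → FF M) {s : H} (hs : s ∈ C) :
    EG M C g s = eh M (fun t : C => g t) ⟨s, hs⟩ := by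
  unfold EG PP.ext0
  rw [dif_pos hs]

omit [Finite H] in
theorem EG_not (C : Subgroup H) (g : H → FF M) {s : H} (hs : s ∉ C) : EG M C g s = 0 := by
  unfold EG PP.ext0
  rw [dif_neg hs]

/-- `gv` as a sum over the group -/
theorem gv_sum [Fintype H] {X C : Subgroup H} (hXC : X = C) (w : H) (g : H → FF M)
    (χ : H → ℂ) : gv M X w g χ = ∑ s : H, EG M C g s * χ (w * s) := by
  subst hXC
  unfold gv gbv
  rw [← finsum_eq_sum_of_fintype,
    H75.sum_sub X (fun s => EG M X g s * χ (w * s)) (fun x hx => by rw [EG_not X g hx, zero_mul])]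
  refine finsum_congr fun s => ?_
  rw [EG_mem X g s.2]

/-- central translations -/
theorem sum_cent_mul [Fintype H] (E : H → ℂ) {χ : H → ℂ} (hχ : χ ∈ Irr H) {z : H}
    (hz : z ∈ Subgroup.center H) (w : H) :
    ∑ s : H, E s * χ (w * z * s) = χ z / χ 1 * ∑ s : H, E s * χ (w * s) := by
  rw [Finset.mul_sum]
  refine Finset.sum_congr rfl fun s _ => ?_
  have e1 : w * z * s = z * (w * s) := by
    rw [Subgroup.mem_center_iff.1 hz w, mul_assoc]
  rw [e1, KF.H32.central_mul hχ hz]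
  ring

omit [Finite H] in
theorem cu_pow {ℓ : ℕ} [hℓ : Fact ℓ.Prime] {x : H} (hx : x ^ ℓ = 1) {j : ℕ} (hj : ¬ ℓ ∣ j) :
    Cu (x ^ j) = Cu x := by
  have h1 : orderOf x ∣ ℓ := orderOf_dvd_of_pow_eq_one hx
  have h2 : j.Coprime (orderOf x) := by
    refine Nat.Coprime.coprime_dvd_right h1 ?_
    exact ((Nat.Prime.coprime_iff_not_dvd hℓ.out).2 hj).symm
  obtain ⟨m, hm⟩ := exists_pow_eq_self_of_coprime h2
  ext y
  rw [Subgroup.mem_centralizer_singleton_iff, Subgroup.mem_centralizer_singleton_iff]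
  constructor
  · intro h
    rw [← hm]
    exact (show Commute y (x ^ j) from h).pow_right m
  · intro h
    exact (show Commute y x from h).pow_right j

/-- the local block of an element `y` of `V` with `C(y) = C(V)` is `g` -/
theorem lc_of {ℓ : ℕ} {b : H → FF M} {V : Subgroup H} {g : H → FF M} (hL : Ld ℓ b V g) {y : H}
    (hCy : Cu y = Subgroup.centralizer (V : Set H)) : Lc b V g y g := by
  have h1 : ∀ X : Subgroup H, X = Subgroup.centralizer (V : Set H) →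
      Bx X g ∧ mulF (fun t : X => b t) (fun t : X => g t) = fun t : X => g t := by
    rintro X rfl
    refine ⟨hL.gam, ?_⟩
    have h2 := mulF_res (Subgroup.centralizer (V : Set H)) (a := br V b) g
      (fun x hx => H66.br_of_not_mem hx)
    rw [hL.und] at h2
    have h3 : (fun t : Subgroup.centralizer (V : Set H) => br V b t) =
        fun t : Subgroup.centralizer (V : Set H) => b t := by
      funext t
      exact H66.br_of_mem t.2
    rw [h3] at h2
    exact h2.symm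
  obtain ⟨h2, h3⟩ := h1 _ hCy
  refine ⟨h2, h3, ?_⟩
  have h4 : br V g = g := by
    funext x
    by_cases hx : x ∈ Subgroup.centralizer (V : Set H)
    · exact H66.br_of_mem hx
    · rw [H66.br_of_not_mem hx, hL.gam.supp x hx]
  rw [h4]
  exact hL.gam.mul

/-- degree along an equality of subgroups -/
theorem dg_eq {X Y : Subgroup H} (hXY : X = Y) {g : H → FF M} {c : ℕ}
    (h : Dg M (fun t : Y => g t) c) : Dg M (fun t : X => g t) c := by
  subst hXY
  exact h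

end gen

section vals

variable {ℓ : ℕ} [hℓ : Fact ℓ.Prime] {M : Ideal (integralClosure ℤ ℂ)} [M.IsMaximal]
  (hM : (ℓ : integralClosure ℤ ℂ) ∈ M) {H : Type} [Group H] [Finite H]

include hM in
/-- signs with the same residue are equal -/
theorem sign_eq (h2 : ℓ ≠ 2) {ε S : ℤ} (hε : ε = 1 ∨ ε = -1) (hS : S = 1 ∨ S = -1)
    (h : (ε : FF M) = (S : FF M)) : ε = S := by
  have hch : CharP (FF M) ℓ := (H50.fld ℓ Fact.out M hM).char
  have h3 : ¬ ((ℓ : ℤ) ∣ 2) := by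
    intro hd
    have h4 : ℓ ∣ 2 := by exact_mod_cast hd
    exact h2 ((Nat.prime_dvd_prime_iff_eq hℓ.out Nat.prime_two).1 h4)
  rcases hε with rfl | rfl <;> rcases hS with rfl | rfl
  · rfl
  · exfalso
    apply h3
    rw [← CharP.intCast_eq_zero_iff (FF M) ℓ 2]
    have : ((2 : ℤ) : FF M) = ((1 : ℤ) : FF M) - ((-1 : ℤ) : FF M) := by push_cast; ring
    rw [this, h, sub_self]
  · exfalso
    apply h3
    rw [← CharP.intCast_eq_zero_iff (FF M) ℓ 2]
    have : ((2 : ℤ) : FF M) = ((1 : ℤ) : FF M) - ((-1 : ℤ) : FF M) := by push_cast; ring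
    rw [this, h, sub_self]
  · rfl

include hM in
/-- the values of a character of the block at the products `x ^ j g`, `x` not central -/
theorem vals_in (h2 : ℓ ≠ 2) (hNil : NilStmt) (hInr : InrStmt) (hRsv : RsvStmt)
    (hIso : IsoStmt) {b : H → FF M} {V : Subgroup H} {g : H → FF M} (hL : Ld ℓ b V g)
    (hix : ix V g = 1) {x : H} (hx : x ∈ V) (hxc : x ∉ Subgroup.center H)
    (hCx : Cu x = Subgroup.centralizer (V : Set H)) (hxℓ : x ^ ℓ = 1) {d c : ℕ} (hd : Dg M b d)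
    (hc : Dg M (fun t : Subgroup.centralizer (V : Set H) => g t) c) {S : ℤ}
    (hS : S = 1 ∨ S = -1)
    (hU : (S * Nat.card H * c / (Nat.card (Subgroup.centralizer (V : Set H)) * d) : ℂ) ∈ RM M)
    (hU1 : rr M (S * Nat.card H * c / (Nat.card (Subgroup.centralizer (V : Set H)) * d) : ℂ) = 1)
    {ψ : H → ℂ} (hψ : ψ ∈ IrrE M b) : ∃ (m₀ : ℤ) (η : ℂ), η ^ ℓ = 1 ∧
      (∀ j : ℕ, ¬ ℓ ∣ j → gv M (Cu x) (x ^ j) g ψ = c * (S * η ^ j)) ∧
      gv M (Cu x) 1 g ψ = c * (ℓ * m₀ + S) := by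
  have hTC : Tg V g ≤ Subgroup.centralizer (V : Set H) := Subgroup.relIndex_eq_one.1 hix
  obtain ⟨ζ, hζ⟩ : ∃ ζ : ℂ, IsPrimitiveRoot ζ ℓ := ⟨_, Complex.isPrimitiveRoot_exp _ hℓ.out.ne_zero⟩
  have hc0 : (c : ℂ) ≠ 0 := Nat.cast_ne_zero.2 hc.1.ne'
  have hd0 : (d : ℂ) ≠ 0 := Nat.cast_ne_zero.2 hd.1.ne'
  have hbx : Ix (Cu x) g := (lc_of hL hCx).blk.ix
  obtain ⟨m, hm⟩ := hInr M H x ℓ hℓ.out.pos hxℓ g hbx c (dg_eq hCx hc) ζ hζ ψ hψ.1
  -- the absolute values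
  have hn : ∀ j : ℕ, ¬ ℓ ∣ j →
      Complex.normSq (∑ i ∈ Finset.range ℓ, (m i : ℂ) * ζ ^ (i * j)) = 1 := by
    intro j hj
    have hCj : Cu (x ^ j) = Subgroup.centralizer (V : Set H) := (cu_pow hxℓ hj).trans hCx
    have hxj : x ^ j ∉ Subgroup.center H := by
      intro h
      apply hxc
      rw [Subgroup.mem_center_iff] at h ⊢
      intro y
      have h3 : y ∈ Cu (x ^ j) := Subgroup.mem_centralizer_singleton_iff.2 (h y)
      rw [cu_pow hxℓ hj] at h3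
      exact Subgroup.mem_centralizer_singleton_iff.1 h3
    have h3 := (hNil ℓ M hM H b V g hL hix).2.2 (x ^ j) (V.pow_mem hx j) hxj g (lc_of hL hCj) c
      (dg_eq hCj hc) ψ hψ
    have h4 : gv M (Cu (x ^ j)) (x ^ j) g ψ = gv M (Cu x) (x ^ j) g ψ := by
      have := Fintype.ofFinite H
      rw [gv_sum (cu_pow hxℓ hj), gv_sum rfl]
    rw [h4, hm j, mul_div_cancel_left₀ _ hc0] at h3
    exact h3
  obtain ⟨j₀, ε, m₀, hε, hmk⟩ := hIso ℓ ζ hζ (fun k => m k) (fun j hj => by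
    rw [Fin.sum_univ_eq_sum_range (fun k => (m k : ℂ) * ζ ^ (k * j))]
    exact hn j hj)
  obtain ⟨v1, v2⟩ := val_of_delta hζ m j₀ ε m₀ hmk
  have hη : (ζ ^ (j₀ : ℕ)) ^ ℓ = 1 := by
    rw [← pow_mul, mul_comm, pow_mul, hζ.pow_eq_one, one_pow]
  -- the sign
  have hj1 : ¬ ℓ ∣ 1 := fun h => hℓ.out.one_lt.ne' (Nat.dvd_one.1 h)
  have hval : gv M (Cu x) x g ψ = c * (ε * ζ ^ (j₀ : ℕ)) := by
    have h3 := hm 1
    rw [pow_one, v1 1 hj1, pow_one] at h3
    exact h3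
  obtain ⟨-, o⟩ := K9.H19.omg M H x (fun t : Cu x => g t) hbx.idem x (Subgroup.mem_zpowers x)
  obtain ⟨o1, o2⟩ := o ψ hψ.1
  have o3 := hRsv ℓ M hM H b V g hL x hx g (lc_of hL hCx) ψ hψ
  have o4 : (Cu x).relIndex (Tg V g) = 1 := Subgroup.relIndex_eq_one.2 (by rw [hCx]; exact hTC)
  rw [o4, Nat.cast_one] at o3
  have o5 : gbv (Cu x) x (eh M (fun t : Cu x => g t)) ψ = c * (ε * ζ ^ (j₀ : ℕ)) := hval
  rw [o3, o5, hd.2 ψ hψ] at o2
  rw [o5, hd.2 ψ hψ] at o1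
  have hηr := H41.rr_root hM (ζ := ζ ^ (j₀ : ℕ)) (k := 1) (by rw [pow_one]; exact hη)
  have hcard : (Nat.card (Cu x) : ℂ) = Nat.card (Subgroup.centralizer (V : Set H)) := by
    rw [hCx]
  rw [hcard] at o1 o2
  have hC0 : (Nat.card (Subgroup.centralizer (V : Set H)) : ℂ) ≠ 0 :=
    Nat.cast_ne_zero.2 Nat.card_pos.ne'
  have hSS : (S : ℂ) * S = 1 := by
    rcases hS with h | h <;> rw [h] <;> norm_num
  have key : (Nat.card H * (c * (ε * ζ ^ (j₀ : ℕ))) /
      (Nat.card (Subgroup.centralizer (V : Set H)) * d) : ℂ) =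
      ((ε * S : ℤ) : ℂ) * ((S * Nat.card H * c /
        (Nat.card (Subgroup.centralizer (V : Set H)) * d) : ℂ) * ζ ^ (j₀ : ℕ)) := by
    push_cast
    field_simp
    linear_combination (-(Nat.card H : ℂ) * ε * ζ ^ (j₀ : ℕ)) * hSS
  rw [key, rr_mul (rr_int _).1 ((RM M).mul_mem hU hηr.1), rr_mul hU hηr.1, hU1, hηr.2,
    (rr_int _).2, one_mul, mul_one] at o2
  have hεS : ε = S := by
    refine sign_eq hM h2 hε hS ?_
    have hSS' : (S : FF M) * S = 1 := by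
      rcases hS with h | h <;> rw [h] <;> norm_num
    have h5 : ((ε * S : ℤ) : FF M) * S = 1 * S := by rw [o2]
    push_cast at h5
    rw [mul_assoc, hSS', mul_one, one_mul] at h5
    exact h5
  refine ⟨m₀, ζ ^ (j₀ : ℕ), hη, ?_, ?_⟩
  · intro j hj
    rw [hm j, v1 j hj, hεS]
  · have h3 := hm 0
    rw [pow_zero] at h3
    rw [h3]
    congr 1
    simp only [mul_zero, pow_zero, mul_one]
    have h4 : ((∑ i ∈ Finset.range ℓ, m i : ℤ) : ℂ) = ((ℓ * m₀ + ε : ℤ) : ℂ) := by rw [v2]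
    rw [hεS] at h4
    push_cast at h4
    exact h4

include hM in
/-- the values of the characters outside of the block -/
theorem vals_out (hInr : InrStmt) (hSmg : SmgStmt) {b : H → FF M} {V : Subgroup H}
    {g : H → FF M} (hL : Ld ℓ b V g) {x : H} (hx1 : x ≠ 1)
    (hCx : Cu x = Subgroup.centralizer (V : Set H)) (hxℓ : x ^ ℓ = 1) {c : ℕ}
    (hc : Dg M (fun t : Subgroup.centralizer (V : Set H) => g t) c) {ψ : H → ℂ}
    (hψ : ψ ∈ Irr H) (hψb : ψ ∉ IrrE M b) :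
    (∀ j : ℕ, ¬ ℓ ∣ j → gv M (Cu x) (x ^ j) g ψ = 0) ∧
      ∃ m₀ : ℤ, gv M (Cu x) 1 g ψ = c * (ℓ * m₀) := by
  obtain ⟨ζ, hζ⟩ : ∃ ζ : ℂ, IsPrimitiveRoot ζ ℓ := ⟨_, Complex.isPrimitiveRoot_exp _ hℓ.out.ne_zero⟩
  have hc0 : (c : ℂ) ≠ 0 := Nat.cast_ne_zero.2 hc.1.ne'
  have hbx : Ix (Cu x) g := (lc_of hL hCx).blk.ix
  obtain ⟨m, hm⟩ := hInr M H x ℓ hℓ.out.pos hxℓ g hbx c (dg_eq hCx hc) ζ hζ ψ hψ
  have hz : ∀ j : ℕ, ¬ ℓ ∣ j → gv M (Cu x) (x ^ j) g ψ = 0 := by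
    intro j hj
    have hCj : Cu (x ^ j) = Subgroup.centralizer (V : Set H) := (cu_pow hxℓ hj).trans hCx
    have hxj : x ^ j ≠ 1 := by
      intro h
      apply hx1
      have h3 : orderOf x ∣ ℓ := orderOf_dvd_of_pow_eq_one hxℓ
      have h4 : orderOf x ∣ j := orderOf_dvd_of_pow_eq_one h
      have h5 : orderOf x ∣ Nat.gcd ℓ j := Nat.dvd_gcd h3 h4
      rw [((Nat.Prime.coprime_iff_not_dvd hℓ.out).2 hj)] at h5
      exact orderOf_eq_one_iff.1 (Nat.dvd_one.1 h5)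
    have hel : El ℓ (x ^ j) := ⟨1, by rw [pow_one, ← pow_mul, mul_comm, pow_mul, hxℓ, one_pow]⟩
    have hlc := lc_of hL hCj
    have h3 := (hSmg ℓ M hM H (x ^ j) 1 hxj hel (Subgroup.one_mem _) H25.reg_one
      (fun t : Cu (x ^ j) => g t) hlc.blk.ix.idem b hL.blk.1).1 hlc.und ψ hψ hψb
    rw [mul_one] at h3
    have h4 : gv M (Cu x) (x ^ j) g ψ = gv M (Cu (x ^ j)) (x ^ j) g ψ := by
      have := Fintype.ofFinite H
      rw [gv_sum (cu_pow hxℓ hj), gv_sum rfl]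
    rw [h4]
    exact h3
  refine ⟨hz, m 0, ?_⟩
  have h3 := sum_of_zero hζ m (fun j hj => by
    have h4 := hm j
    rw [hz j hj] at h4
    exact (mul_eq_zero.1 h4.symm).resolve_left hc0)
  have h4 := hm 0
  rw [pow_zero] at h4
  rw [h4]
  congr 1
  simp only [mul_zero, pow_zero, mul_one]
  have h5 : ((∑ i ∈ Finset.range ℓ, m i : ℤ) : ℂ) = ((ℓ * m 0 : ℤ) : ℂ) := by rw [h3]
  push_cast at h5
  exact h5

end vals

end Pool.Agent.PP.SO.H33
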