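import Pool.Agent.Helper33_ASO.Mu

/-!
# Central characters, bijection and inversion in the group `H = C(i W)`
-/

open scoped BigOperators

noncomputable section

namespace Pool.Agent.PP.SO.H33

open Pool.Agent.Helper51_AWC Pool.Agent.Helper79_WRA Pool.Agent.PP Pool.Agent.PP.KF
open Pool.Agent.PP.K9 Pool.Agent.PP.K9.H97 Pool.Agent.PP.H75 Pool.Agent.PP.T3

attribute [local instance] Ideal.Quotient.field

/-- `1` on `W` and `U` outside of `W` -/
def UX {V₀ : Type} [CommGroup V₀] (W : Subgroup V₀) (U : ℂ) (x : V₀) : ℂ :=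
  open Classical in if x ∈ W then 1 else U

section hd

variable {ℓ : ℕ} [hℓ : Fact ℓ.Prime] {M : Ideal (integralClosure ℤ ℂ)} [M.IsMaximal]
  {V₀ H : Type} [CommGroup V₀] [Fintype V₀] [Group H] {W : Subgroup V₀} {j : V₀ →* H}
  {b g : H → FF M} {d c : ℕ} {S : ℤ} [Finite H] (hM : (ℓ : integralClosure ℤ ℂ) ∈ M)
  [Fintype H]

include hM in
/-- the main statement in the group `H` -/
theorem HD.main (h : HD ℓ M W j b g d c S) (h2 : ℓ ≠ 2) (hNil : NilStmt) (hInr : InrStmt)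
    (hRsv : RsvStmt) (hIso : IsoStmt) (hSmg : SmgStmt) {U : ℂ}
    (hU : U = S * Nat.card H * c / (Nat.card (Subgroup.centralizer (j.range : Set H)) * d)) :
    ∃ μ : (H → ℂ) → V₀ → ℂ, Set.BijOn μ (IrrE M b) {f | Ln f} ∧
      (∀ ψ ∈ IrrE M b, ∀ x, ∑ y, FX M W j b g x y * ψ y = ψ 1 * (UX W U x * μ ψ x)) ∧
      (∀ ψ ∈ Irr H, ψ ∉ IrrE M b → ∀ x, ∑ y, FX M W j b g x y * ψ y = 0) ∧
      (∀ ψ ∈ IrrE M b, ∀ y, ψ y = Nat.card H / (ℓ ^ 2 * d) *
        ∑ x, starRingEnd ℂ (μ ψ x) / UX W U x * FX M W j b g x y⁻¹) ∧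
      (∀ ψ ∈ IrrE M b, ∃ m₀ : ℤ,
        (∑ s : H, EG M (Subgroup.centralizer (j.range : Set H)) g s * ψ s = c * (ℓ * m₀ + S)) ∨
        (Subgroup.centralizer (j.range : Set H) = ⊤ ∧
          ∑ s : H, EG M (Subgroup.centralizer (j.range : Set H)) g s * ψ s = c)) ∧
      (∀ ψ ∈ Irr H, ψ ∉ IrrE M b → ∃ m₀ : ℤ,
        ∑ s : H, EG M (Subgroup.centralizer (j.range : Set H)) g s * ψ s = c * (ℓ * m₀)) ∧
      eh M b 1 = ℓ ^ 2 * d ^ 2 / Nat.card H := by
  classical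
  have hex : ∀ ψ : H → ℂ, ∃ μ : V₀ → ℂ, ψ ∈ IrrE M b → (Ln μ ∧
      (∀ x ∈ W, ψ (j x) = ψ 1 * μ x) ∧
      (∀ x, x ∉ W → ∑ s : H, EG M (Subgroup.centralizer (j.range : Set H)) g s * ψ (j x * s) =
        c * (S * μ x)) ∧
      ∃ m₀ : ℤ, (∑ s : H, EG M (Subgroup.centralizer (j.range : Set H)) g s * ψ s =
        c * (ℓ * m₀ + S)) ∨ (Subgroup.centralizer (j.range : Set H) = ⊤ ∧
        ∑ s : H, EG M (Subgroup.centralizer (j.range : Set H)) g s * ψ s = c)) := by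
    intro ψ
    by_cases hψ : ψ ∈ IrrE M b
    · obtain ⟨μ, h3⟩ := h.mu hM h2 hNil hInr hRsv hIso hψ
      exact ⟨μ, fun _ => h3⟩
    · exact ⟨0, fun h' => absurd h' hψ⟩
  choose μ hμ using hex
  have hd0 : (d : ℂ) ≠ 0 := Nat.cast_ne_zero.2 h.dd.1.ne'
  have hc0 : (c : ℂ) ≠ 0 := Nat.cast_ne_zero.2 h.dc.1.ne'
  have hH0 : (Nat.card H : ℂ) ≠ 0 := Nat.cast_ne_zero.2 Nat.card_pos.ne'
  have hC0 : (Nat.card (Subgroup.centralizer (j.range : Set H)) : ℂ) ≠ 0 :=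
    Nat.cast_ne_zero.2 Nat.card_pos.ne'
  have hℓ0 : (ℓ : ℂ) ≠ 0 := Nat.cast_ne_zero.2 hℓ.out.ne_zero
  have hS0 : (S : ℂ) ≠ 0 := by
    rcases h.sg with h' | h' <;> rw [h'] <;> norm_num
  have hU0 : U ≠ 0 := by
    rw [hU]
    exact div_ne_zero (mul_ne_zero (mul_ne_zero hS0 hH0) hc0) (mul_ne_zero hC0 hd0)
  have hUX0 : ∀ x, UX W U x ≠ 0 := by
    intro x
    unfold UX
    split_ifs
    · exact one_ne_zero
    · exact hU0
  have hcardV : Fintype.card V₀ = ℓ ^ 2 := by rw [← Nat.card_eq_fintype_card, h.cd]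
  have hnc : (IrrE M b).ncard = ℓ ^ 2 := by
    rw [(hNil ℓ M hM H b j.range g h.ld h.ix1).2.1, ← h.cd]
    exact (Nat.card_congr (MonoidHom.ofInjective h.inj).toEquiv).symm
  have hbij : Set.BijOn μ (IrrE M b) {f | Ln f} :=
    bij_of_sum (H25.irrE_finite M b) (by rw [hnc, hcardV]) μ (fun ψ hψ => (hμ ψ hψ).1)
      (fun x hx => h.sums hM μ (fun ψ hψ => (hμ ψ hψ).2.1) (fun ψ hψ => (hμ ψ hψ).2.2.1) hx)
  have hval : ∀ ψ ∈ IrrE M b, ∀ x,
      ∑ y, FX M W j b g x y * ψ y = ψ 1 * (UX W U x * μ ψ x) := by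
    intro ψ hψ x
    obtain ⟨f1, f2⟩ := FX_val (M := M) (W := W) (j := j) (b := b) (g := g) hψ.1 x
    unfold UX
    by_cases hx : x ∈ W
    · rw [if_pos hx, one_mul, (f1 hx).1 hψ (h.cen x hx), (hμ ψ hψ).2.1 x hx]
    · rw [if_neg hx, f2 hx, (hμ ψ hψ).2.2.1 x hx, h.dd.2 ψ hψ, hU]
      field_simp
  have hout : ∀ ψ ∈ Irr H, ψ ∉ IrrE M b → ∀ x, ∑ y, FX M W j b g x y * ψ y = 0 := by
    intro ψ hψ hψb x
    obtain ⟨f1, f2⟩ := FX_val (M := M) (W := W) (j := j) (b := b) (g := g) hψ x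
    by_cases hx : x ∈ W
    · exact (f1 hx).2 hψb (h.cen x hx)
    · rw [f2 hx, (h.out hM h2 hInr hSmg hψ hψb).1 x hx, mul_zero]
  refine ⟨μ, hbij, hval, hout, ?_, fun ψ hψ => (hμ ψ hψ).2.2.2,
    fun ψ hψ hψb => (h.out hM h2 hInr hSmg hψ hψb).2, ?_⟩
  · -- inversion
    intro χ hχ
    have h0 : (fun y => χ y - Nat.card H / (ℓ ^ 2 * d) *
        ∑ x, starRingEnd ℂ (μ χ x) / UX W U x * FX M W j b g x y⁻¹) = 0 := by
      apply irr_complete'
      · intro y k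
        have e1 : (k * y * k⁻¹)⁻¹ = k * y⁻¹ * k⁻¹ := by group
        rw [irr_conj hχ.1, e1]
        simp_rw [FX_cl h.cen]
      · intro ψ hψ
        have e2 : ∀ x, ∑ y, FX M W j b g x y⁻¹ * ψ y⁻¹ = ∑ y, FX M W j b g x y * ψ y :=
          fun x => Equiv.sum_comp (Equiv.inv H) (fun y => FX M W j b g x y * ψ y)
        have e3 : ∑ y, (χ y - Nat.card H / (ℓ ^ 2 * d) *
            ∑ x, starRingEnd ℂ (μ χ x) / UX W U x * FX M W j b g x y⁻¹) * ψ y⁻¹ =
            ∑ y, χ y * ψ y⁻¹ - Nat.card H / (ℓ ^ 2 * d) *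
            ∑ x, starRingEnd ℂ (μ χ x) / UX W U x * ∑ y, FX M W j b g x y * ψ y := by
          simp_rw [sub_mul, Finset.sum_sub_distrib]
          congr 1
          simp_rw [← e2, Finset.mul_sum, Finset.sum_mul]
          rw [Finset.sum_comm]
          refine Finset.sum_congr rfl fun x _ => Finset.sum_congr rfl fun y _ => ?_
          ring
        rw [e3]
        by_cases hψb : ψ ∈ IrrE M b
        · have e4 : ∀ x, starRingEnd ℂ (μ χ x) / UX W U x *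
              ∑ y, FX M W j b g x y * ψ y = d * (μ χ x⁻¹ * μ ψ x) := by
            intro x
            rw [hval ψ hψb x, h.dd.2 ψ hψb, (hμ χ hχ).1.star]
            have := hUX0 x
            field_simp
          rw [Finset.sum_congr rfl fun x _ => e4 x, ← Finset.mul_sum]
          by_cases hχψ : χ = ψ
          · subst hχψ
            rw [irr_orth_self hχ.1, (hμ χ hχ).1.orth_self, hcardV, Nat.card_eq_fintype_card]
            push_cast
            field_simp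
            ring
          · have hne : μ χ ≠ μ ψ := fun h' => hχψ (hbij.injOn hχ hψb h')
            rw [irr_orth_ne hχ.1 hψ hχψ, (hμ χ hχ).1.orth (hμ ψ hψb).1 hne]
            ring
        · have hχψ : χ ≠ ψ := fun h' => hψb (h' ▸ hχ)
          rw [irr_orth_ne hχ.1 hψ hχψ]
          simp_rw [hout ψ hψ hψb]
          simp
    intro y
    have h3 := congrFun h0 y
    simp only [Pi.zero_apply] at h3
    exact sub_eq_zero.1 h3
  · rw [K9.H25.eh_eq, Finset.sum_congr rfl (g := fun _ => (d : ℂ) ^ 2)]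
    · rw [Finset.sum_const, ← Set.ncard_eq_toFinset_card _ (H25.irrE_finite M b), hnc,
        nsmul_eq_mul, Nat.card_eq_fintype_card]
      push_cast
      rw [div_eq_inv_mul]
    · intro χ hχ
      rw [inv_one, h.dd.2 χ ((H25.irrE_finite M b).mem_toFinset.1 hχ)]
      ring

end hd

end Pool.Agent.PP.SO.H33
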