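import Pool.Agent.Helper33_ASO.Abs

/-!
# The linear character of a character of a local block
-/

open scoped BigOperators

noncomputable section

namespace Pool.Agent.PP.SO.H33

open Pool.Agent.Helper51_AWC Pool.Agent.Helper79_WRA Pool.Agent.PP Pool.Agent.PP.KF
open Pool.Agent.PP.K9 Pool.Agent.PP.K9.H97 Pool.Agent.PP.H75 Pool.Agent.PP.T3

attribute [local instance] Ideal.Quotient.field

/-- the data of a local block in its own group -/
structure HD (ℓ : ℕ) (M : Ideal (integralClosure ℤ ℂ)) [M.IsMaximal] {V₀ H : Type}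
    [CommGroup V₀] [Group H] (W : Subgroup V₀) (j : V₀ →* H) (b g : H → FF M) (d c : ℕ)
    (S : ℤ) : Prop where
  ex : ∀ v : V₀, v ^ ℓ = 1
  cd : Nat.card V₀ = ℓ ^ 2
  nb : W ≠ ⊥
  inj : Function.Injective j
  cen : ∀ w ∈ W, j w ∈ Subgroup.center H
  ld : Ld ℓ b j.range g
  ix1 : ix j.range g = 1
  dd : Dg M b d
  dc : Dg M (fun t : Subgroup.centralizer (j.range : Set H) => g t) c
  sg : S = 1 ∨ S = -1
  un : (S * Nat.card H * c / (Nat.card (Subgroup.centralizer (j.range : Set H)) * d) : ℂ) ∈ RM M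
  un1 : rr M (S * Nat.card H * c /
    (Nat.card (Subgroup.centralizer (j.range : Set H)) * d) : ℂ) = 1

section hd

variable {ℓ : ℕ} [hℓ : Fact ℓ.Prime] {M : Ideal (integralClosure ℤ ℂ)} [M.IsMaximal]
  {V₀ H : Type} [CommGroup V₀] [Group H] {W : Subgroup V₀} {j : V₀ →* H} {b g : H → FF M}
  {d c : ℕ} {S : ℤ}

theorem HD.cu (h : HD ℓ M W j b g d c S) {x : V₀} (hx : x ∉ W) :
    Cu (j x) = Subgroup.centralizer (j.range : Set H) := by
  ext y
  rw [Subgroup.mem_centralizer_singleton_iff, Subgroup.mem_centralizer_iff]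
  constructor
  · rintro hy _ ⟨v, rfl⟩
    obtain ⟨k, w, hw, rfl⟩ := decomp h.ex h.cd h.nb hx v
    rw [map_mul, map_pow]
    have h1 : Commute y (j x) := hy
    have h2 : Commute y (j w) := Subgroup.mem_center_iff.1 (h.cen w hw) y
    exact ((h1.pow_right k).mul_right h2).symm
  · intro hy
    exact (hy (j x) ⟨x, rfl⟩).symm

/-- if one element outside of `W` is central then everything is -/
theorem HD.all_cen (h : HD ℓ M W j b g d c S) {x : V₀} (hx : x ∉ W)
    (hxc : j x ∈ Subgroup.center H) : j.range ≤ Subgroup.center H := by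
  rintro _ ⟨v, rfl⟩
  obtain ⟨k, w, hw, rfl⟩ := decomp h.ex h.cd h.nb hx v
  rw [map_mul, map_pow]
  exact Subgroup.mul_mem _ (Subgroup.pow_mem _ hxc k) (h.cen w hw)

theorem HD.pow_j (h : HD ℓ M W j b g d c S) (x : V₀) : j x ^ ℓ = 1 := by
  rw [← map_pow, h.ex, map_one]

theorem HD.el (h : HD ℓ M W j b g d c S) (x : V₀) : El ℓ (j x) :=
  ⟨1, by rw [pow_one, h.pow_j]⟩

variable [Finite H] (hM : (ℓ : integralClosure ℤ ℂ) ∈ M)

include hM in
/-- the central case -/
theorem HD.central (h : HD ℓ M W j b g d c S) (h2 : ℓ ≠ 2) (hz : j.range ≤ Subgroup.center H) :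
    Subgroup.centralizer (j.range : Set H) = ⊤ ∧ b = g ∧ c = d ∧ S = 1 ∧
      EG M (Subgroup.centralizer (j.range : Set H)) g = eh M b := by
  have htop : Subgroup.centralizer (j.range : Set H) = ⊤ := by
    rw [eq_top_iff]
    intro y _
    rw [Subgroup.mem_centralizer_iff]
    intro v hv
    exact (Subgroup.mem_center_iff.1 (hz hv) y).symm
  obtain ⟨h3, h4⟩ := H41.nit_central M hM H b j.range g h.ld hz d c h.dd h.dc
  have hbrb : br j.range b = b := funext fun x => H66.br_of_mem (by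
    rw [htop]
    exact Subgroup.mem_top x)
  have hγb : IsBlk g := by
    have h1 : ∀ C : Subgroup H, C = ⊤ → IsBlk (fun t : C => g t) → IsBlk g := by
      rintro _ rfl h
      exact H9.blk_tr Subgroup.topEquiv.symm h
    exact h1 _ htop h.ld.gam.blk
  have hmul : mulF b g = g := by
    have h1 := h.ld.und
    rwa [hbrb] at h1
  have hbγ : b = g := H17.blk_eq h.ld.blk hγb (by
    rw [hmul]
    exact hγb.2.1)
  have hS : S = 1 := by
    refine sign_eq hM h2 h.sg (Or.inl rfl) ?_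
    have h5 := h.un1
    have hd0 : (d : ℂ) ≠ 0 := Nat.cast_ne_zero.2 h.dd.1.ne'
    have hH0 : (Nat.card H : ℂ) ≠ 0 := Nat.cast_ne_zero.2 Nat.card_pos.ne'
    have e1 : (S * Nat.card H * c /
        (Nat.card (Subgroup.centralizer (j.range : Set H)) * d) : ℂ) = (S : ℂ) := by
      rw [h3, h4]
      field_simp
    rw [e1, (rr_int S).2] at h5
    rw [h5, Int.cast_one]
  refine ⟨htop, hbγ, h4, hS, ?_⟩
  have h6 : ∀ C : Subgroup H, C = ⊤ → EG M C g = eh M g := by
    rintro _ rfl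
    funext s
    rw [EG_mem ⊤ g (Subgroup.mem_top s)]
    have h7 := T3.H62.eh_equiv (M := M) (Subgroup.topEquiv : (⊤ : Subgroup H) ≃* H)
      (b := fun t : (⊤ : Subgroup H) => g t) (fun x y => hγb.1.1 x y) ⟨s, Subgroup.mem_top s⟩
    rw [← h7]
    rfl
  rw [h6 _ htop, hbγ]

variable [Fintype H]

include hM in
/-- the linear character -/
theorem HD.mu (h : HD ℓ M W j b g d c S) (h2 : ℓ ≠ 2) (hNil : NilStmt) (hInr : InrStmt)
    (hRsv : RsvStmt) (hIso : IsoStmt) {ψ : H → ℂ} (hψ : ψ ∈ IrrE M b) :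
    ∃ μ : V₀ → ℂ, Ln μ ∧ (∀ x ∈ W, ψ (j x) = ψ 1 * μ x) ∧
      (∀ x, x ∉ W → ∑ s : H, EG M (Subgroup.centralizer (j.range : Set H)) g s * ψ (j x * s) =
        c * (S * μ x)) ∧
      ∃ m₀ : ℤ, (∑ s : H, EG M (Subgroup.centralizer (j.range : Set H)) g s * ψ s =
        c * (ℓ * m₀ + S)) ∨ (Subgroup.centralizer (j.range : Set H) = ⊤ ∧
        ∑ s : H, EG M (Subgroup.centralizer (j.range : Set H)) g s * ψ s = c) := by
  classical
  have hψ1 : ψ 1 ≠ 0 := irr_one_ne hψ.1
  have hνm : ∀ w ∈ W, ∀ w' ∈ W, ψ (j (w * w')) / ψ 1 = ψ (j w) / ψ 1 * (ψ (j w') / ψ 1) := by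
    intro w hw w' _
    rw [map_mul, KF.H32.central_mul hψ.1 (h.cen w hw)]
    field_simp
  by_cases hz : j.range ≤ Subgroup.center H
  · obtain ⟨c1, c2, c3, c4, c5⟩ := h.central hM h2 hz
    refine ⟨fun x => ψ (j x) / ψ 1, ⟨?_, ?_⟩, ?_, ?_, 0, Or.inr ⟨c1, ?_⟩⟩
    · simp only [map_one]
      exact div_self hψ1
    · intro v w
      simp only [map_mul]
      rw [KF.H32.central_mul hψ.1 (hz ⟨v, rfl⟩)]
      field_simp
    · intro x _
      field_simp
    · intro x _
      have e1 := sum_cent_mul (EG M (Subgroup.centralizer (j.range : Set H)) g) hψ.1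
        (hz ⟨x, rfl⟩) 1
      simp only [one_mul] at e1
      rw [e1, c5, H25.eh_chv M b hψ.1, if_pos hψ, h.dd.2 ψ hψ, c3, c4]
      push_cast
      ring
    · rw [c5, H25.eh_chv M b hψ.1, if_pos hψ, h.dd.2 ψ hψ, c3]
  · -- the case of a noncentral `V`
    have hWne : ∃ x₀, x₀ ∉ W := by
      by_contra hcon
      push Not at hcon
      apply hz
      rintro _ ⟨v, rfl⟩
      exact h.cen v (hcon v)
    obtain ⟨x₀, hx₀⟩ := hWne
    have hx₀c : j x₀ ∉ Subgroup.center H := fun h' => hz (h.all_cen hx₀ h')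
    obtain ⟨m₀, η, hη, hv, hv0⟩ := vals_in hM h2 hNil hInr hRsv hIso h.ld h.ix1 ⟨x₀, rfl⟩ hx₀c
      (h.cu hx₀) (h.pow_j x₀) h.dd h.dc h.sg h.un h.un1 hψ
    have hc0 : (c : ℂ) ≠ 0 := Nat.cast_ne_zero.2 h.dc.1.ne'
    have hS0 : (S : ℂ) ≠ 0 := by
      rcases h.sg with h' | h' <;> rw [h'] <;> norm_num
    obtain ⟨μ, hμ⟩ : ∃ μ : V₀ → ℂ, μ = fun v => if v ∈ W then ψ (j v) / ψ 1 else
      (∑ s : H, EG M (Subgroup.centralizer (j.range : Set H)) g s * ψ (j v * s)) / (c * S) :=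
      ⟨_, rfl⟩
    have key : ∀ k : ℕ, ∀ w ∈ W, μ (x₀ ^ k * w) = ψ (j w) / ψ 1 * η ^ k := by
      intro k w hw
      by_cases hk : ℓ ∣ k
      · have e1 : x₀ ^ k = 1 := pow_dvd h.ex x₀ hk
        have e2 : η ^ k = 1 := by
          obtain ⟨n, rfl⟩ := hk
          rw [pow_mul, hη, one_pow]
        rw [e1, e2, one_mul, mul_one, hμ]
        simp only
        rw [if_pos hw]
      · have e1 : x₀ ^ k ∉ W := pow_notMem h.ex hx₀ hk
        have e2 : x₀ ^ k * w ∉ W := fun h' => e1 ((Subgroup.mul_mem_cancel_right W hw).1 h')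
        rw [hμ]
        simp only
        rw [if_neg e2, map_mul, map_pow,
          sum_cent_mul (EG M (Subgroup.centralizer (j.range : Set H)) g) hψ.1 (h.cen w hw)
            (j x₀ ^ k), ← gv_sum (h.cu hx₀), hv k hk]
        field_simp
    refine ⟨μ, ln_of h.ex h.cd h.nb hx₀ (ν := fun w => ψ (j w) / ψ 1) hνm
      (by simp only [map_one]; exact div_self hψ1) key, ?_, ?_, m₀, Or.inl ?_⟩
    · intro x hx
      rw [hμ]
      simp only
      rw [if_pos hx]
      field_simp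
    · intro x hx
      rw [hμ]
      simp only
      rw [if_neg hx]
      field_simp
    · rw [← hv0, gv_sum (h.cu hx₀)]
      simp only [one_mul]

include hM in
/-- the characters outside of the block -/
theorem HD.out (h : HD ℓ M W j b g d c S) (h2 : ℓ ≠ 2) (hInr : InrStmt) (hSmg : SmgStmt)
    {ψ : H → ℂ} (hψ : ψ ∈ Irr H) (hψb : ψ ∉ IrrE M b) :
    (∀ x, x ∉ W → ∑ s : H, EG M (Subgroup.centralizer (j.range : Set H)) g s * ψ (j x * s) = 0) ∧
      ∃ m₀ : ℤ, ∑ s : H, EG M (Subgroup.centralizer (j.range : Set H)) g s * ψ s =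
        c * (ℓ * m₀) := by
  classical
  by_cases hz : j.range ≤ Subgroup.center H
  · obtain ⟨c1, c2, c3, c4, c5⟩ := h.central hM h2 hz
    refine ⟨fun x _ => ?_, 0, ?_⟩
    · have e1 := sum_cent_mul (EG M (Subgroup.centralizer (j.range : Set H)) g) hψ
        (hz ⟨x, rfl⟩) 1
      simp only [one_mul] at e1
      rw [e1, c5, H25.eh_chv M b hψ, if_neg hψb, mul_zero]
    · rw [c5, H25.eh_chv M b hψ, if_neg hψb]
      simp
  · have hWne : ∃ x₀, x₀ ∉ W := by
      by_contra hcon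
      push Not at hcon
      apply hz
      rintro _ ⟨v, rfl⟩
      exact h.cen v (hcon v)
    obtain ⟨x₀, hx₀⟩ := hWne
    have hne : ∀ x : V₀, x ∉ W → j x ≠ 1 := by
      intro x hx h'
      apply hx
      have : x = 1 := h.inj (by rw [h', map_one])
      rw [this]
      exact W.one_mem
    have hj1 : ¬ ℓ ∣ 1 := fun h => hℓ.out.one_lt.ne' (Nat.dvd_one.1 h)
    refine ⟨fun x hx => ?_, ?_⟩
    · have h3 := (vals_out hM hInr hSmg h.ld (hne x hx) (h.cu hx) (h.pow_j x) h.dc hψ hψb).1 1 hj1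
      rw [pow_one, gv_sum (h.cu hx)] at h3
      exact h3
    · obtain ⟨m₀, h3⟩ := (vals_out hM hInr hSmg h.ld (hne x₀ hx₀) (h.cu hx₀) (h.pow_j x₀) h.dc
        hψ hψb).2
      rw [gv_sum (h.cu hx₀)] at h3
      simp only [one_mul] at h3
      exact ⟨m₀, h3⟩

include hM in
/-- the sums of the linear characters -/
theorem HD.sums (h : HD ℓ M W j b g d c S) (μ : (H → ℂ) → V₀ → ℂ)
    (hW : ∀ ψ ∈ IrrE M b, ∀ x ∈ W, ψ (j x) = ψ 1 * μ ψ x)
    (hO : ∀ ψ ∈ IrrE M b, ∀ x, x ∉ W →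
      ∑ s : H, EG M (Subgroup.centralizer (j.range : Set H)) g s * ψ (j x * s) =
        c * (S * μ ψ x)) {x : V₀} (hx : x ≠ 1) :
    ∑ ψ ∈ (H25.irrE_finite M b).toFinset, μ ψ x = 0 := by
  classical
  have hd0 : (d : ℂ) ≠ 0 := Nat.cast_ne_zero.2 h.dd.1.ne'
  have hc0 : (c : ℂ) ≠ 0 := Nat.cast_ne_zero.2 h.dc.1.ne'
  have hS0 : (S : ℂ) ≠ 0 := by
    rcases h.sg with h' | h' <;> rw [h'] <;> norm_num
  have hjx : j x ≠ 1 := fun h' => hx (h.inj (by rw [h', map_one]))
  have hpr : ∀ y : H, ¬ Reg ℓ y → ∑ ψ ∈ (H25.irrE_finite M b).toFinset, ψ y = 0 := by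
    intro y hy
    have h3 := (H25.rc_pr H72.wbo_ ℓ M hM H b h.ld.blk.1).sg y hy
    rw [H25.pr_eq] at h3
    have h4 : ∑ ψ ∈ (H25.irrE_finite M b).toFinset, ψ 1 * ψ y =
        d * ∑ ψ ∈ (H25.irrE_finite M b).toFinset, ψ y := by
      rw [Finset.mul_sum]
      refine Finset.sum_congr rfl fun ψ hψ => ?_
      rw [h.dd.2 ψ ((H25.irrE_finite M b).mem_toFinset.1 hψ)]
    rw [h4] at h3
    exact (mul_eq_zero.1 h3).resolve_left hd0
  by_cases hxW : x ∈ W
  · have h3 := hpr (j x) (fun h' => hjx (H72.el_reg (h.el x) h'))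
    have h4 : ∑ ψ ∈ (H25.irrE_finite M b).toFinset, ψ (j x) =
        d * ∑ ψ ∈ (H25.irrE_finite M b).toFinset, μ ψ x := by
      rw [Finset.mul_sum]
      refine Finset.sum_congr rfl fun ψ hψ => ?_
      have hψ' := (H25.irrE_finite M b).mem_toFinset.1 hψ
      rw [hW ψ hψ' x hxW, h.dd.2 ψ hψ']
    rw [h4] at h3
    exact (mul_eq_zero.1 h3).resolve_left hd0
  · have h3 : ∑ ψ ∈ (H25.irrE_finite M b).toFinset,
        ∑ s : H, EG M (Subgroup.centralizer (j.range : Set H)) g s * ψ (j x * s) = 0 := by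
      rw [Finset.sum_comm]
      refine Finset.sum_eq_zero fun s _ => ?_
      rw [← Finset.mul_sum]
      by_cases hs : s ∈ Subgroup.centralizer (j.range : Set H)
      · by_cases hr : Reg ℓ s
        · rw [hpr, mul_zero]
          have hcom : Commute (j x) s :=
            Subgroup.mem_centralizer_iff.1 hs (j x) ⟨x, rfl⟩
          exact H72.sing_mul (h.el x) hjx hcom hr
        · rw [EG_mem _ _ hs]
          have := Fintype.ofFinite (Subgroup.centralizer (j.range : Set H))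
          rw [H25.eh_sing H72.wbo_ ℓ M hM _ h.ld.gam.ix.idem, zero_mul]
          intro h'
          apply hr
          unfold Reg at h' ⊢
          rwa [← Subgroup.orderOf_coe] at h'
      · rw [EG_not _ _ hs, zero_mul]
    have h4 : ∑ ψ ∈ (H25.irrE_finite M b).toFinset,
        ∑ s : H, EG M (Subgroup.centralizer (j.range : Set H)) g s * ψ (j x * s) =
        c * S * ∑ ψ ∈ (H25.irrE_finite M b).toFinset, μ ψ x := by
      rw [Finset.mul_sum]
      refine Finset.sum_congr rfl fun ψ hψ => ?_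
      rw [hO ψ ((H25.irrE_finite M b).mem_toFinset.1 hψ) x hxW]
      ring
    rw [h4] at h3
    exact (mul_eq_zero.1 h3).resolve_left (mul_ne_zero hc0 hS0)

/-- the functions of the sums of the conjugates -/
def FX (M : Ideal (integralClosure ℤ ℂ)) [M.IsMaximal] {V₀ H : Type} [CommGroup V₀] [Group H]
    (W : Subgroup V₀) (j : V₀ →* H) (b g : H → FF M) (x : V₀) (y : H) : ℂ :=
  open Classical in
  if x ∈ W then eh M b ((j x)⁻¹ * y) else
    (Nat.card (Subgroup.centralizer (j.range : Set H)) : ℂ)⁻¹ *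
      ∑ᶠ z : H, EG M (Subgroup.centralizer (j.range : Set H)) g ((j x)⁻¹ * (z⁻¹ * y * z))

/-- `FX` is a class function -/
theorem FX_cl (hcen : ∀ w ∈ W, j w ∈ Subgroup.center H) (x : V₀) (y k : H) :
    FX M W j b g x (k * y * k⁻¹) = FX M W j b g x y := by
  classical
  unfold FX
  split_ifs with hx
  · have h1 := Subgroup.mem_center_iff.1 (Subgroup.inv_mem _ (hcen x hx)) k
    have e1 : (j x)⁻¹ * (k * y * k⁻¹) = k * ((j x)⁻¹ * y) * k⁻¹ := by
      rw [← mul_assoc, ← mul_assoc, ← h1]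
      group
    rw [e1, K9.H25.eh_cl]
  · congr 1
    rw [finsum_eq_sum_of_fintype, finsum_eq_sum_of_fintype,
      ← Equiv.sum_comp (Equiv.mulLeft k)]
    refine Finset.sum_congr rfl fun z _ => ?_
    show EG M _ g ((j x)⁻¹ * ((k * z)⁻¹ * (k * y * k⁻¹) * (k * z))) = _
    congr 1
    group

/-- the values of the characters at `FX` -/
theorem FX_val {ψ : H → ℂ} (hψ : ψ ∈ Irr H) (x : V₀) :
    (x ∈ W → (ψ ∈ IrrE M b → j x ∈ Subgroup.center H →
        ∑ y, FX M W j b g x y * ψ y = ψ (j x)) ∧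
      (ψ ∉ IrrE M b → j x ∈ Subgroup.center H → ∑ y, FX M W j b g x y * ψ y = 0)) ∧
    (x ∉ W → ∑ y, FX M W j b g x y * ψ y = Nat.card H /
      Nat.card (Subgroup.centralizer (j.range : Set H)) *
      ∑ s : H, EG M (Subgroup.centralizer (j.range : Set H)) g s * ψ (j x * s)) := by
  classical
  have hsum : x ∈ W → j x ∈ Subgroup.center H → ∑ y, FX M W j b g x y * ψ y =
      ψ (j x) / ψ 1 * ∑ s, eh M b s * ψ s := by
    intro hx hxc
    rw [← Equiv.sum_comp (Equiv.mulLeft (j x)), Finset.mul_sum]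
    refine Finset.sum_congr rfl fun y _ => ?_
    show FX M W j b g x (j x * y) * ψ (j x * y) = _
    unfold FX
    rw [if_pos hx, inv_mul_cancel_left, KF.H32.central_mul hψ hxc]
    ring
  refine ⟨fun hx => ⟨fun hb hxc => ?_, fun hb hxc => ?_⟩, fun hx => ?_⟩
  · rw [hsum hx hxc, H25.eh_chv M b hψ, if_pos hb]
    have := irr_one_ne hψ
    field_simp
  · rw [hsum hx hxc, H25.eh_chv M b hψ, if_neg hb, mul_zero]
  · have e1 : ∀ y, FX M W j b g x y =
        (Nat.card (Subgroup.centralizer (j.range : Set H)) : ℂ)⁻¹ *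
        ∑ z : H, EG M (Subgroup.centralizer (j.range : Set H)) g ((j x)⁻¹ * (z⁻¹ * y * z)) := by
      intro y
      unfold FX
      rw [if_neg hx, finsum_eq_sum_of_fintype]
    simp_rw [e1, mul_assoc, ← Finset.mul_sum, Finset.sum_mul]
    rw [Finset.sum_comm]
    have e2 : ∀ z : H, ∑ y, EG M (Subgroup.centralizer (j.range : Set H)) g
        ((j x)⁻¹ * (z⁻¹ * (y * z))) * ψ y =
        ∑ s : H, EG M (Subgroup.centralizer (j.range : Set H)) g s * ψ (j x * s) := by
      intro z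
      have e3 : ∀ s : H, ψ (j x * s) = ψ (z * (j x * s) * z⁻¹) := fun s =>
        (irr_conj hψ _ _).symm
      rw [← Equiv.sum_comp ((Equiv.mulLeft (j x)).trans (MulAut.conj z).toEquiv)]
      refine Finset.sum_congr rfl fun s _ => ?_
      show EG M _ g ((j x)⁻¹ * (z⁻¹ * (z * (j x * s) * z⁻¹ * z))) *
        ψ (z * (j x * s) * z⁻¹) = _
      rw [← e3 s]
      congr 2
      group
    simp_rw [← mul_assoc] at e2 ⊢
    rw [Finset.sum_congr rfl fun z _ => e2 z, Finset.sum_const, Finset.card_univ, nsmul_eq_mul,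
      Nat.card_eq_fintype_card (α := H), div_eq_mul_inv]
    ring

end hd

end Pool.Agent.PP.SO.H33
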