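import Pool.Agent.Helper33_ASO.MainH
import Pool.Agent.Helper85_AT3.LSB
import Pool.Agent.Helper97_K9.NZR

/-!
# Row NSV: the values of the central characters in the local blocks
-/

open scoped BigOperators

noncomputable section

namespace Pool.Agent.PP.SO.H33

open Pool.Agent.Helper51_AWC Pool.Agent.Helper79_WRA Pool.Agent.PP Pool.Agent.PP.KF
open Pool.Agent.PP.K9 Pool.Agent.PP.K9.H97 Pool.Agent.PP.H75 Pool.Agent.PP.T3

attribute [local instance] Ideal.Quotient.field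

section rl

variable {ℓ : ℕ} [hℓ : Fact ℓ.Prime] {M : Ideal (integralClosure ℤ ℂ)} [M.IsMaximal]

/-- rational numbers with denominator prime to `ℓ` are in the local ring -/
theorem rl_RM (hM : (ℓ : integralClosure ℤ ℂ) ∈ M) {q : ℚ} (hq : q ∈ SOR.Rl ℓ) :
    (q : ℂ) ∈ RM M := by
  have h1 : ¬ ℓ ∣ q.den := hq
  have hch : CharP (FF M) ℓ := (H50.fld ℓ Fact.out M hM).char
  have h2 : rr M (q.den : ℂ) ≠ 0 := by
    rw [(rr_nat q.den).2]
    intro h
    exact h1 ((CharP.cast_eq_zero_iff (FF M) ℓ q.den).1 h)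
  have h3 := (inv_RM (rr_nat q.den).1 h2).1
  have h4 : (q : ℂ) = (q.num : ℂ) * (q.den : ℂ)⁻¹ := by
    rw [← div_eq_mul_inv]
    exact Rat.cast_def q
  rw [h4]
  exact (RM M).mul_mem (rr_int q.num).1 h3

theorem unit_RM (hM : (ℓ : integralClosure ℤ ℂ) ∈ M) {u q : ℚ} (hq : q ∈ SOR.Rl ℓ)
    (hu : u = 1 + ℓ * q) : (u : ℂ) ∈ RM M ∧ rr M (u : ℂ) = 1 := by
  have hch : CharP (FF M) ℓ := (H50.fld ℓ Fact.out M hM).char
  have h1 := rl_RM hM hq
  have h2 : (u : ℂ) = 1 + (ℓ : ℂ) * (q : ℂ) := by rw [hu]; push_cast; ring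
  have h3 : (ℓ : ℂ) * (q : ℂ) ∈ RM M := (RM M).mul_mem (rr_nat ℓ).1 h1
  refine ⟨?_, ?_⟩
  · rw [h2]
    exact (RM M).add_mem (RM M).one_mem h3
  · rw [h2, rr_add (RM M).one_mem h3, rr_one, rr_mul (rr_nat ℓ).1 h1, (rr_nat ℓ).2,
      CharP.cast_eq_zero (FF M) ℓ, zero_mul, add_zero]

end rl

section tr

variable {ℓ : ℕ} [hℓ : Fact ℓ.Prime] {M : Ideal (integralClosure ℤ ℂ)} [M.IsMaximal]
  {V₀ G : Type} [CommGroup V₀] [Group G] {E₀ : Subgroup (MulAut V₀)} (B : Bk (FF M) V₀ G)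

omit [M.IsMaximal] in
theorem i_mem_C (W : Subgroup V₀) (v : V₀) : B.i v ∈ B.C W := by
  unfold Bk.C
  rw [Subgroup.mem_centralizer_iff]
  rintro _ ⟨w, _, rfl⟩
  rw [← map_mul, ← map_mul, mul_comm]

omit [M.IsMaximal] in
theorem mem_C {W : Subgroup V₀} {y : G} : y ∈ B.C W ↔ ∀ w ∈ W, B.i w * y = y * B.i w := by
  unfold Bk.C
  rw [Subgroup.mem_centralizer_iff]
  constructor
  · intro h w hw
    exact h (B.i w) ⟨w, hw, rfl⟩
  · rintro h _ ⟨w, hw, rfl⟩
    exact h w hw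

omit [M.IsMaximal] in
theorem C_top : B.C ⊤ = Subgroup.centralizer (B.i.range : Set G) := by
  ext y
  rw [mem_C, Subgroup.mem_centralizer_iff]
  constructor
  · rintro h _ ⟨w, rfl⟩
    exact h w (Subgroup.mem_top w)
  · intro h w _
    exact h (B.i w) ⟨w, rfl⟩

omit [M.IsMaximal] in
theorem C_top_le (W : Subgroup V₀) : Subgroup.centralizer (B.i.range : Set G) ≤ B.C W := by
  intro y hy
  rw [mem_C]
  intro w _
  exact Subgroup.mem_centralizer_iff.1 hy (B.i w) ⟨w, rfl⟩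

omit [M.IsMaximal] in
theorem i_le_C (W : Subgroup V₀) : B.i.range ≤ B.C W := by
  rintro _ ⟨v, rfl⟩
  exact i_mem_C B W v

/-- the embedding of the defect group in `C(i W)` -/
def jW (W : Subgroup V₀) : V₀ →* B.C W := B.i.codRestrict (B.C W) (i_mem_C B W)

omit [M.IsMaximal] in
theorem jW_coe (W : Subgroup V₀) (v : V₀) : (jW B W v : G) = B.i v := rfl

omit [M.IsMaximal] in
theorem jW_range (W : Subgroup V₀) : (jW B W).range = B.i.range.subgroupOf (B.C W) := by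
  ext t
  rw [Subgroup.mem_subgroupOf]
  constructor
  · rintro ⟨v, rfl⟩
    exact ⟨v, rfl⟩
  · rintro ⟨v, hv⟩
    exact ⟨v, Subtype.ext hv⟩

omit [M.IsMaximal] in
theorem jW_cen (W : Subgroup V₀) {w : V₀} (hw : w ∈ W) : jW B W w ∈ Subgroup.center (B.C W) := by
  rw [Subgroup.mem_center_iff]
  intro y
  apply Subtype.ext
  show (y : G) * B.i w = B.i w * y
  exact ((mem_C B).1 y.2 w hw).symm

variable [Finite G]

theorem b_top (hb : Sb ℓ M E₀ B) : B.b ⊤ = B.g := by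
  have h1 : Bx (Subgroup.centralizer (B.i.range : Set G)) (B.b ⊤) := by
    have h2 := (hb.lb ⊤).blk
    have h3 : Subgroup.centralizer (((⊤ : Subgroup V₀).map B.i : Subgroup G) : Set G) =
        Subgroup.centralizer (B.i.range : Set G) := C_top B
    rw [h3] at h2
    exact h2
  have h2 : br B.i.range (B.b ⊤) = B.b ⊤ := by
    funext x
    by_cases hx : x ∈ Subgroup.centralizer (B.i.range : Set G)
    · exact H66.br_of_mem hx
    · rw [H66.br_of_not_mem hx, h1.supp x hx]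
  have h3 := (hb.lb ⊤).gam
  rw [h2] at h3
  rcases h1.dich hb.ld.gam with h4 | h4
  · exact h4
  · exfalso
    apply hb.ld.gam.ne
    rw [← h3, h4]

/-- the lift of `g` on `C(i W)` -/
theorem bh_top (hb : Sb ℓ M E₀ B) (W : Subgroup V₀) (t : B.C W) :
    bh B ⊤ t = EG M (Subgroup.centralizer ((jW B W).range : Set (B.C W)))
      (fun t : B.C W => B.g t) t := by
  have hX : ∀ X : Subgroup G, X = Subgroup.centralizer (B.i.range : Set G) →
      PP.ext0 X (eh M (fun t : X => B.g t)) t =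
      EG M (Subgroup.centralizer ((B.i.range.subgroupOf (B.C W) : Subgroup (B.C W)) :
        Set (B.C W))) (fun t : B.C W => B.g t) t := by
    rintro X rfl
    have hVX := i_le_C B W
    have hCX := C_top_le B W
    by_cases ht : (t : G) ∈ Subgroup.centralizer (B.i.range : Set G)
    · have ht' : t ∈ Subgroup.centralizer ((B.i.range.subgroupOf (B.C W) :
          Subgroup (B.C W)) : Set (B.C W)) := (cent_sub hVX t).2 ht
      rw [EG_mem _ _ ht']
      unfold PP.ext0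
      rw [dif_pos ht]
      have h1 := T3.H62.eh_equiv (M := M) (H85.cequiv hVX hCX).symm
        (b := fun t : Subgroup.centralizer (B.i.range : Set G) => B.g t)
        hb.ld.gam.blk.1.1 ⟨t, ht⟩
      rw [← h1]
      rfl
    · have ht' : t ∉ Subgroup.centralizer ((B.i.range.subgroupOf (B.C W) :
          Subgroup (B.C W)) : Set (B.C W)) := fun h => ht ((cent_sub hVX t).1 h)
      rw [EG_not _ _ ht']
      unfold PP.ext0
      rw [dif_neg ht]
  unfold bh
  rw [b_top B hb, jW_range]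
  exact hX _ (C_top B)

theorem bh_W (W : Subgroup V₀) (t : B.C W) :
    bh B W t = eh M (fun t : B.C W => B.b W t) t := by
  unfold bh PP.ext0
  rw [dif_pos t.2]

theorem bh_not (W : Subgroup V₀) {t : G} (ht : t ∉ B.C W) : bh B W t = 0 := by
  unfold bh PP.ext0
  rw [dif_neg ht]

variable [Finite V₀]

/-- the functions `fc` on `C(i W)` -/
theorem fc_eq (hcd : Nat.card V₀ = ℓ ^ 2) (hb : Sb ℓ M E₀ B) {W : Subgroup V₀} (hW : W ≠ ⊥)
    (x : V₀) (t : B.C W) :
    fc B W x t = FX M W (jW B W) (fun t : B.C W => B.b W t) (fun t : B.C W => B.g t) x t := by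
  classical
  have := Fintype.ofFinite (B.C W)
  unfold FX fc
  by_cases hx : x ∈ W
  · have h1 : W ⊔ Subgroup.zpowers x = W := sup_eq_left.2 (Subgroup.zpowers_le.2 hx)
    rw [if_pos hx, h1, finsum_eq_sum_of_fintype]
    have h2 : ∀ z : B.C W, bh B W ((B.i x)⁻¹ * ((z : G)⁻¹ * t * z)) =
        eh M (fun t : B.C W => B.b W t) ((jW B W x)⁻¹ * t) := by
      intro z
      have e1 : (B.i x)⁻¹ * ((z : G)⁻¹ * t * z) =
          (((jW B W x)⁻¹ * (z⁻¹ * t * z) : B.C W) : G) := rfl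
      rw [e1, bh_W]
      have h3 := Subgroup.mem_center_iff.1 (Subgroup.inv_mem _ (jW_cen B W hx)) z⁻¹
      have e2 : (jW B W x)⁻¹ * (z⁻¹ * t * z) = z⁻¹ * ((jW B W x)⁻¹ * t) * (z⁻¹)⁻¹ := by
        rw [inv_inv, ← mul_assoc, ← mul_assoc, ← h3]
        group
      rw [e2, K9.H25.eh_cl]
    rw [Finset.sum_congr rfl fun z _ => h2 z, Finset.sum_const, Finset.card_univ, nsmul_eq_mul,
      ← mul_assoc, Nat.card_eq_fintype_card, inv_mul_cancel₀, one_mul]
    exact_mod_cast Fintype.card_ne_zero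
  · have h1 : W ⊔ Subgroup.zpowers x = ⊤ := sup_top hcd hW hx
    rw [if_neg hx, h1]
    have h2 : Nat.card (B.C ⊤) =
        Nat.card (Subgroup.centralizer ((jW B W).range : Set (B.C W))) := by
      rw [C_top, jW_range]
      exact (Nat.card_congr (H85.cequiv (i_le_C B W) (C_top_le B W)).toEquiv).symm
    rw [h2]
    congr 1
    refine finsum_congr fun z => ?_
    exact bh_top B hb W ((jW B W x)⁻¹ * (z⁻¹ * t * z))

/-- a sum over `G` -/
theorem sum_supp (W : Subgroup V₀) [Fintype (B.C W)] {χ : G → ℂ}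
    (hχ : ∀ x, x ∉ B.C W → χ x = 0) (f : G → ℂ) :
    ∑ᶠ s, f s * χ s = ∑ t : B.C W, f t * χ t := by
  rw [H75.sum_sub (B.C W) (fun s => f s * χ s) (fun x hx => by rw [hχ x hx, mul_zero]),
    finsum_eq_sum_of_fintype]

/-- the data of the local block -/
theorem hd_of (hM : (ℓ : integralClosure ℤ ℂ) ∈ M) (hFr : Fr ℓ V₀ E₀)
    (hLbg : LbgStmt) (hB : Sy ℓ M E₀ B) {W : Subgroup V₀} (hW : W ≠ ⊥) :
    HD ℓ M W (jW B W) (fun t : B.C W => B.b W t) (fun t : B.C W => B.g t) (B.D W) (B.D ⊤)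
      (B.S W) ∧ ((B.U W : ℚ) : ℂ) = B.S W * Nat.card (B.C W) * B.D ⊤ /
        (Nat.card (Subgroup.centralizer ((jW B W).range : Set (B.C W))) * B.D W) := by
  have hVX := i_le_C B W
  have hCX := C_top_le B W
  obtain ⟨l1, l2⟩ := hLbg ℓ M hM V₀ G E₀ hFr B hB.toSb W hW
  have hcardC : Nat.card (Subgroup.centralizer ((jW B W).range : Set (B.C W))) =
      Nat.card (B.C ⊤) := by
    rw [C_top, jW_range]
    exact Nat.card_congr (H85.cequiv hVX hCX).toEquiv
  have hU : ((B.U W : ℚ) : ℂ) = B.S W * Nat.card (B.C W) * B.D ⊤ /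
        (Nat.card (Subgroup.centralizer ((jW B W).range : Set (B.C W))) * B.D W) := by
    rw [hcardC]
    unfold Bk.U
    push_cast
    ring
  have htop : (⊤ : Subgroup V₀) ≠ ⊥ := fun h => hW (eq_bot_iff.2 (h ▸ le_top))
  have hdc : Dg M (fun t : Subgroup.centralizer ((jW B W).range : Set (B.C W)) =>
      B.g ((t : B.C W) : G)) (B.D ⊤) := by
    have h1 := hB.dg ⊤ htop
    rw [b_top B hB.toSb] at h1
    have h2 : Dg M (fun t : Subgroup.centralizer (B.i.range : Set G) => B.g t) (B.D ⊤) := by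
      have h3 : ∀ X : Subgroup G, X = Subgroup.centralizer (B.i.range : Set G) →
          Dg M (fun t : X => B.g t) (B.D ⊤) →
          Dg M (fun t : Subgroup.centralizer (B.i.range : Set G) => B.g t) (B.D ⊤) := by
        rintro X rfl h
        exact h
      exact h3 _ (C_top B) h1
    have h4 := H85.dg_equiv (H85.cequiv hVX hCX).symm hB.ld.gam.blk.1.1 h2
    rw [jW_range]
    exact h4
  obtain ⟨q, hq, hUq⟩ := hB.un W hW
  obtain ⟨u1, u2⟩ := unit_RM hM hq hUq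
  rw [hU] at u1 u2
  refine ⟨{ ex := hFr.ex, cd := hFr.cd, nb := hW, inj := ?_, cen := fun w hw => jW_cen B W hw,
            ld := ?_, ix1 := ?_, dd := hB.dg W hW, dc := hdc, sg := hB.sg W hW,
            un := u1, un1 := u2 }, hU⟩
  · intro v w h
    exact hB.inj (congrArg Subtype.val h)
  · rw [jW_range]
    exact l1
  · rw [jW_range]
    exact l2

end tr

/-- NSV, from the library -/
theorem nsv_of (hNil : NilStmt) (hInr : InrStmt) (hRsv : RsvStmt) (hSmg : SmgStmt)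
    (hLbg : LbgStmt) (hIso : IsoStmt) : NsvStmt := by
  classical
  intro ℓ _ M _ hM h2 V₀ G _ _ _ _ E₀ hFr B hB W hW
  have := Fintype.ofFinite G
  have := Fintype.ofFinite V₀
  have := Fintype.ofFinite (B.C W)
  obtain ⟨hd, hU⟩ := hd_of B hM hFr hLbg hB hW
  obtain ⟨μ, m1, m2, m3, m4, m5, m6, m7⟩ :=
    hd.main hM h2 hNil hInr hRsv hIso hSmg hU
  -- notation
  have hux : ∀ x, ((ux B.U W x : ℚ) : ℂ) = UX W ((B.U W : ℚ) : ℂ) x := by
    intro x
    unfold ux UX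
    split_ifs
    · exact Rat.cast_one
    · rfl
  have hU0 : ((B.U W : ℚ) : ℂ) ≠ 0 := by
    have h3 := (unit_RM hM (hB.un W hW).choose_spec.1 (hB.un W hW).choose_spec.2).2
    intro h0
    rw [h0, rr_zero] at h3
    exact zero_ne_one h3
  have hux0 : ∀ x, ((ux B.U W x : ℚ) : ℂ) ≠ 0 := by
    intro x
    rw [hux]
    unfold UX
    split_ifs
    · exact one_ne_zero
    · exact hU0
  have hcv : ∀ χ : G → ℂ, (∀ x, x ∉ B.C W → χ x = 0) → ∀ x, cv (fc B W x) χ =
      (∑ t : B.C W, FX M W (jW B W) (fun t : B.C W => B.b W t) (fun t : B.C W => B.g t) x t *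
        χ t) / χ 1 := by
    intro χ hχ x
    unfold cv
    rw [sum_supp B W hχ]
    simp_rw [fc_eq B hFr.cd hB.toSb hW]
  have hin : ∀ χ ∈ Ch B W, ∀ x, cv (fc B W x) χ =
      ((ux B.U W x : ℚ) : ℂ) * μ (fun t : B.C W => χ t) x := by
    intro χ hχ x
    have h3 := m2 (fun t : B.C W => χ t) hχ.2 x
    have h4 : χ 1 ≠ 0 := by
      have h5 := irr_one_ne hχ.2.1
      exact h5
    rw [hcv χ hχ.1, h3, hux]
    show χ 1 * _ / χ 1 = _
    field_simp
  have hlam : ∀ χ ∈ Ch B W, lam B W χ = μ (fun t : B.C W => χ t) := by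
    intro χ hχ
    funext x
    unfold lam
    rw [hin χ hχ x, mul_div_cancel_left₀ _ (hux0 x)]
  have hout : ∀ χ : G → ℂ, (∀ x, x ∉ B.C W → χ x = 0) →
      (fun t : B.C W => χ t) ∈ Irr (B.C W) → χ ∉ Ch B W →
      (fun t : B.C W => χ t) ∉ IrrE M (fun t : B.C W => B.b W t) :=
    fun χ h3 _ h5 h6 => h5 ⟨h3, h6⟩
  have htopsum : ∀ χ : G → ℂ, (∀ x, x ∉ B.C W → χ x = 0) → ∑ᶠ s, bh B ⊤ s * χ s =
      ∑ t : B.C W, EG M (Subgroup.centralizer ((jW B W).range : Set (B.C W)))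
        (fun t : B.C W => B.g t) t * χ t := by
    intro χ hχ
    rw [sum_supp B W hχ]
    simp_rw [bh_top B hB.toSb W]
  refine ⟨⟨?_, ?_, ?_⟩, ?_, ?_, ?_, ?_, ?_, ?_⟩
  · intro χ hχ
    rw [hlam χ hχ]
    exact m1.mapsTo hχ.2
  · intro χ hχ χ' hχ' h
    rw [hlam χ hχ, hlam χ' hχ'] at h
    have h3 := m1.injOn hχ.2 hχ'.2 h
    funext x
    by_cases hx : x ∈ B.C W
    · exact congrFun h3 ⟨x, hx⟩
    · rw [hχ.1 x hx, hχ'.1 x hx]
  · intro f hf
    obtain ⟨ψ, hψ, hψf⟩ := m1.surjOn hf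
    have h3 : (fun t : B.C W => PP.ext0 (B.C W) ψ t) = ψ := by
      funext t
      unfold PP.ext0
      rw [dif_pos t.2]
    have h4 : PP.ext0 (B.C W) ψ ∈ Ch B W := by
      refine ⟨?_, ?_⟩
      · intro x hx
        unfold PP.ext0
        rw [dif_neg hx]
      · rw [h3]
        exact hψ
    refine ⟨PP.ext0 (B.C W) ψ, h4, ?_⟩
    rw [hlam _ h4, h3]
    exact hψf
  · intro χ hχ x
    rw [hin χ hχ x, hlam χ hχ]
  · intro χ h3 h4 h5 x
    rw [hcv χ h3, m3 _ h4 (hout χ h3 h4 h5) x, zero_div]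
  · intro χ hχ y hy
    have h3 := m4 _ hχ.2 ⟨y, hy⟩
    rw [hlam χ hχ, finsum_eq_sum_of_fintype]
    refine h3.trans ?_
    congr 1
    refine Finset.sum_congr rfl fun x _ => ?_
    rw [hux, ← fc_eq B hFr.cd hB.toSb hW x (⟨y, hy⟩⁻¹ : B.C W)]
    rfl
  · intro χ hχ
    obtain ⟨m₀, h3⟩ := m5 _ hχ.2
    refine ⟨m₀, ?_⟩
    rw [htopsum χ hχ.1]
    rcases h3 with h3 | ⟨h3, h4⟩
    · exact Or.inl h3
    · refine Or.inr ⟨?_, h4⟩
      rw [C_top]
      refine le_antisymm ?_ (C_top_le B W)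
      intro y hy
      have h5 : (⟨y, hy⟩ : B.C W) ∈
          Subgroup.centralizer ((jW B W).range : Set (B.C W)) := by
        rw [h3]
        exact Subgroup.mem_top _
      rw [jW_range] at h5
      exact (cent_sub (i_le_C B W) _).1 h5
  · intro χ h3 h4 h5
    obtain ⟨m₀, h6⟩ := m6 _ h4 (hout χ h3 h4 h5)
    exact ⟨m₀, by rw [htopsum χ h3]; exact h6⟩
  · have h3 := bh_W B W (1 : B.C W)
    rw [m7] at h3
    exact h3

end Pool.Agent.PP.SO.H33
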