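import Pool.Agent.Helper33_ASO.NSV
import Pool.Agent.AT3.Asm

/-!
# Row NSV: final form
-/

namespace Pool.Agent.PP.SO.H33

open Pool.Agent.PP.T3

/-- NSV -/
theorem nsv (hLbg : LbgStmt) (hIso : IsoStmt) : NsvStmt :=
  nsv_of Asm.nil_ Asm.inr_ Asm.rsv_ Asm.smg_ hLbg hIso

end Pool.Agent.PP.SO.H33
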